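import Pool.Agent.Helper11U.Real
import Pool.Agent.Helper11U.Nice

/-!
# Hodge classes of trilinear hypersurfaces are absolute Hodge

`k` is an algebraically closed field with an embedding `σ` into `ℂ`, `C` the category `M_k` of motives for
absolute Hodge cycles, `R : C ⥤ H` the realization `H_σ`. For a separated scheme `X` of finite type over
`k` the object `G i w X` of `C` is the graded piece of weight `w` of the cohomology `H^i_c(X)` with
compact support.

For a trilinear form `T(x, y, z) = ∑ T_{ijk} x_i y_j z_k` over `k` let `V_T` be the smooth affine hypersurface
`T(x, y, z) = 1`, and `Y_T` the affine scheme of the bilinear equations `∑_{ij} T_{ijk} x_i y_j = 0`. Their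
dimensions are arbitrary.
-/

set_option autoImplicit false

open CategoryTheory CategoryTheory.Limits AlgebraicGeometry
open Pool.Agent.Helper11U Pool.Agent.Y116.UV Pool.Agent.Z125.UN Pool.Agent.Q282.UK

universe v u v' u'

namespace Pool.Agent.Results.MP_0da4e0_ag.HodgeClasses

variable {k : Type} [Field k]

/-- One of the three blocks of variables of the trilinear form `T` has at most five elements, or the
block `z` has at most six elements and every minor of the matrix of linear forms
`T(z)_{ij} = ∑_k T_{ijk} z_k` is a product of polynomials of degree at most five and of polynomials with
at most six terms. -/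
def FourfoldType {a b c : ℕ} (T : Fin a → Fin b → Fin c → k) : Prop :=
  (a ≤ 5 ∨ b ≤ 5 ∨ c ≤ 5) ∨ (c ≤ 6 ∧ NiceMinors 5 6 T)

variable {C : Type u} [Category.{v} C] [Abelian C] {H : Type u'} [Category.{v'} H] [Preadditive H]

/-- The known facts of `IsHodgeThy`, and:
* `threefolds`: Hodge classes on smooth proper schemes of dimension at most three are absolute Hodge
  (theorem of Lefschetz on divisors and hard Lefschetz theorem);
* `fourfolds`: the same for the graded pieces of `H^i_c(X)` for the closed subschemes `X` of the affine
  spaces of dimension at most five all of whose equations are products of polynomials of degree at most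
  five and of polynomials with at most six terms. (The components of dimension four are hypersurfaces
  of degree at most five, hence uniruled, and Hodge classes on them are algebraic by Conte and Murre,
  or they are dominated by products of Fermat varieties and affine spaces, and the motives of Fermat
  varieties are in the category generated by abelian varieties, Deligne, or birational to a product of
  a threefold and a line.) -/
structure IsFourfoldThy (D : HodgeThy k C H) : Prop extends IsHodgeThy D where
  threefolds : ForSmoothProper (fun X => ∀ i, AllAbsolute D (D.G i i X)) 3
  fourfolds : ForNice (fun X => ∀ i w, AllAbsolute D (D.G i w X)) 5 5 6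

variable {D : HodgeThy k C H}

/-- **Theorem.** Let `T` be a trilinear form over `k` such that one of the three blocks of variables has
at most five elements, or there are at most six variables `z` and every minor of the matrix of linear
forms `T(z)` is a product of polynomials of degree at most five and of polynomials with at most six
terms. Then all Hodge classes of the graded pieces of `H^i_c` of the hypersurface `T(x, y, z) = 1` and of
the affine scheme of the bilinear equations `T_k(x, y) = 0` are absolute Hodge. -/
theorem result [IsAlgClosed k] (hD : IsFourfoldThy D) {a b c : ℕ} (T : Fin a → Fin b → Fin c → k)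
    (hT : FourfoldType T) (i w : ℤ) :
    AllAbsolute D (D.G i w (hypS T)) ∧ AllAbsolute D (D.G i w (bilS T)) := by
  have hA := isAdd_absolute hD.toIsHodgeThy
  have hB := bnd_gr hD.gr hA hD.point
  have h1 : ∀ i w, AllAbsolute D (D.G i w (hypS T)) := by
    rcases hT with h | ⟨h1, h2⟩
    · exact (class_iff hD.gr hD.pure hD.resolution hA hD.point 3).mp hD.threefolds a b c T h
    · exact nice_tri hB hD.fourfolds T h1 h2
  exact ⟨h1 i w, (bil_iff hB T).mpr h1 i w⟩

end Pool.Agent.Results.MP_0da4e0_ag.HodgeClasses
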