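import Pool.Agent.Helper11U.Real
import Pool.Agent.Helper11U.Kuga

/-!
# Full faithfulness of the Hodge realization and quartic surfaces

`k` is an algebraically closed field with an embedding `σ` into `ℂ`, `C` the category `M_k` of motives for
absolute Hodge cycles, `R : C ⥤ H` the realization `H_σ`. For a separated scheme `X` of finite type over
`k` the object `G i w X` of `C` is the graded piece of weight `w` of the cohomology `H^i_c(X)` with
compact support; for smooth proper `X` the object `G i i X` is the motive `h^i(X)`.

For a trilinear form `T(x, y, z) = ∑ T_{ijk} x_i y_j z_k` over `k` let `V_T` be the smooth affine hypersurface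
`T(x, y, z) = 1`, and `Y_T` the affine scheme of the bilinear equations `∑_{ij} T_{ijk} x_i y_j = 0`. Their
dimensions are arbitrary. If there are at most four variables `z`, then they are assembled from the closed
subschemes of the affine space of dimension three which are defined by minors of the matrix of
linear forms `T(z)_{ij} = ∑_k T_{ijk} z_k`.

Example for minors with few terms: if `T(z)` is a matrix with the first row `(0, a_1, …, a_n)`, the first
column `(0, g_1, …, g_n)^t` and a diagonal matrix `(b_1, …, b_n)` in the remaining rows and columns, with
linear forms `a_i, b_i, g_i`, then its determinant is `-∑ a_i g_i ∏_{j ≠ i} b_j`; for `n ≤ 4` and monomials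
`a_i, b_i, g_i` all minors have at most four terms.
-/

set_option autoImplicit false

open CategoryTheory CategoryTheory.Limits AlgebraicGeometry
open Pool.Agent.Helper11U Pool.Agent.Y116.UV Pool.Agent.Z125.UN Pool.Agent.Q282.UK

universe v u v' u'

namespace Pool.Agent.Results.MP_0da4e0_ag.QuarticSurfaces

variable {k : Type} [Field k] {C : Type u} [Category.{v} C] [Abelian C] [MonoidalCategory C]
  {H : Type u'} [Category.{v'} H]

/-- The known facts of `IsAvThy` (`AV = M_k^av`), and:
* `faithful`: the realization `H_σ` is faithful;
* `deligne`: `H_σ` is full on `M_k^av` (Deligne). -/
structure IsQuarticThy (D : HodgeThy k C H) (AV : C → Prop) : Prop where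
  av : IsAvThy D.toGrThy AV
  faithful : D.R.Faithful
  deligne : ∀ {M N : C}, AV M → AV N → ∀ h : D.R.obj M ⟶ D.R.obj N, ∃ f : M ⟶ N, D.R.map f = h

variable {D : HodgeThy k C H} {AV : C → Prop}

/-- **Theorem.** The realization `H_σ` is fully faithful on the full subcategory of the motives which are
obtained by direct sums, direct summands, tensor products and Tate twists from the graded pieces of
`H^i_c` of the hypersurfaces `T(x, y, z) = 1` and of the affine schemes of the bilinear equations
`T_k(x, y) = 0`, for all trilinear forms `T` over `k` such that one of the three blocks of variables has
at most three elements, or two blocks have at most four elements, or there are at most four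
variables `z` and every minor of the matrix of linear forms `T(z)` is a product of polynomials of degree
at most four and of polynomials with at most four terms. -/
theorem result [IsAlgClosed k] (hD : IsQuarticThy D AV) (M N : C)
    (hM : Generated D.toGrThy QuarticType M) (hN : Generated D.toGrThy QuarticType N) :
    Function.Bijective fun f : M ⟶ N => D.R.map f := by
  refine ⟨?_, ?_⟩
  · have := hD.faithful
    exact fun f g h => D.R.map_injective h
  · intro h
    exact hD.deligne (av_generated hD.av hM) (av_generated hD.av hN) h

end Pool.Agent.Results.MP_0da4e0_ag.QuarticSurfaces
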