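import Pool.Agent.Helper11U.Real

/-!
# Fullness of the Hodge realization and trilinear forms

`k` is an algebraically closed field with an embedding `σ` into `ℂ`, `C` the (semisimple, abelian)
category `M_k` of motives for absolute Hodge cycles, `H` the category of rational Hodge structures,
`R : C ⥤ H` the realization `H_σ`, `Q n` the motive `1(n)`. For a separated scheme `X` of finite type over
`k` the object `G i w X` of `C` is the graded piece of weight `w` of the cohomology `H^i_c(X)` with
compact support, and `T M = M(-1)` is the Tate twist. For smooth proper `X` the object `G i i X` is the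
motive `h^i(X)`.

The hypersurfaces `T(x, y, z) = 1` in affine spaces for trilinear forms `T` over `k` are smooth, of
arbitrary dimension. If one of the three blocks of variables `x`, `y`, `z` has at most `d + 2` elements
then the graded pieces of `H^i_c` are assembled from varieties of dimension at most `d`, and conversely
every variety of dimension at most `d` is obtained from these hypersurfaces by closed-open
decompositions and affine bundles (starting files).
-/

set_option autoImplicit false

open CategoryTheory CategoryTheory.Limits AlgebraicGeometry
open Pool.Agent.Helper11U Pool.Agent.Y116.UV Pool.Agent.Z125.UN Pool.Agent.Q282.UK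

universe v u v' u'

namespace Pool.Agent.Results.MP_0da4e0_ag.TrilinearHypersurfaces

variable {k : Type} [Field k] {C : Type u} [Category.{v} C] [Abelian C] {H : Type u'}
  [Category.{v'} H] [Preadditive H]

/-- The known facts of `IsHodgeThy`, and: `H_σ` is full if and only if every Hodge class on every smooth
proper scheme is absolute Hodge (problem file; `M_k` is rigid). -/
structure IsFullThy (D : HodgeThy k C H) : Prop extends IsHodgeThy D where
  full_iff : D.R.Full ↔ ForSmoothProper (fun X => ∀ i, AllAbsolute D (D.G i i X)) ⊤

variable {D : HodgeThy k C H}

/-- **Theorem.** The realization `H_σ` is full if and only if all Hodge classes of the graded pieces of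
`H^i_c(V)` are absolute Hodge for the hypersurfaces `V : T(x, y, z) = 1` of all trilinear forms `T` over
`k`. More precisely, for every `d` (`d = 0, 1, 2, …` or `d = ∞`) all Hodge classes on the smooth proper
schemes over `k` of dimension at most `d` are absolute Hodge if and only if all Hodge classes of the
graded pieces of `H^i_c(V)` are absolute Hodge for those `T` such that one of the three blocks of
variables has at most `d + 2` elements. -/
theorem result [IsAlgClosed k] (hD : IsFullThy D) :
    (D.R.Full ↔ ForBlocks (fun V => ∀ i w, AllAbsolute D (D.G i w V)) ⊤) ∧
    ∀ d : ℕ∞, ForSmoothProper (fun X => ∀ i, AllAbsolute D (D.G i i X)) d ↔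
      ForBlocks (fun V => ∀ i w, AllAbsolute D (D.G i w V)) (d + 2) := by
  have key : ∀ d : ℕ∞, ForSmoothProper (fun X => ∀ i, AllAbsolute D (D.G i i X)) d ↔
      ForBlocks (fun V => ∀ i w, AllAbsolute D (D.G i w V)) (d + 2) := fun d =>
    class_blocks hD.gr hD.pure hD.resolution (isAdd_absolute hD.toIsHodgeThy) hD.point d
  exact ⟨hD.full_iff.trans (key ⊤), key⟩

end Pool.Agent.Results.MP_0da4e0_ag.TrilinearHypersurfaces
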