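import Pool.Agent.Hx88.FF.Main

/-!
# Full faithfulness of the Hodge realization on the motives of very general members of families with
# simultaneous semistable degenerations

Let `W` be the cohomology of smooth projective complex varieties with complex coefficients (the
theorem is proved for an abstract Weil cohomology theory with algebraically closed coefficients), with
its rational Hodge structures (`HodgeData`), and `E` its comparison with the cohomology for other
embeddings of the base field, which defines the absolute Hodge classes and the motives `(X, p, m)`
for absolute Hodge cycles (`Embeddings`, `IsAbsOp`).

Let `B` be a connected smooth variety with fundamental group `Γ` and `s` a very general point of `B`. Let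
`G` be the class of the members `X` over `s` of smooth projective families over `B`, with the action of
`Γ` on their cohomology (the constant families belong to it, with the trivial action, so **all** smooth
projective varieties). Products of members are members, `Γ` preserves the degree and the trace and
permutes the classes of algebraic cycles, and every Hodge class is fixed by a subgroup of finite index
of `Γ` (a well known theorem of Deligne). This is what the theorem assumes about `G` (`VeryGeneral`).

Let `𝒵` be a subclass of `G` which is closed under products (for instance all constant abelian varieties)
and let `X i` be finitely or infinitely many members of `G` of odd dimensions such that for every `Z` in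
`𝒵` and every finite set `s` of indices (`Simultaneous`)

* homological and numerical equivalence coincide on `X i`, `i ∈ s`, the transcendental cohomology `T i`
  (the orthogonal complement of the algebraic classes) is in the middle degree, and no subgroup of
  finite index of `Γ` has a stable subspace of `T i` besides `0` and `T i`; for `i ≠ j` the
  representations `T i` and `T j` are not isomorphic up to scalars;
* let `N` be the set of the elements `g ∈ Γ` which act trivially on the cohomology of `Z` and with
  `(g - 1) ^ 2 = 0` on **all** `T j`, `j ∈ s` (`degen`), for example the local monodromies of
  semistable degenerations without triple points; for every `i ∈ s` some `g ∈ N` has defects on `T i`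
  without a common prime factor, or the defect two; or the conjugates of some `g ∈ N` act irreducibly on
  `T i` and the defects of all elements of `N` have no common prime factor (`SmallDefects`). The
  defects of `g` are the rank of `g - 1` on `T i` and the multiplicities of the nonzero eigenvalues of
  `(g - 1) (g' - 1)` on `T i`, for `g' ∈ N`.

So all `X i` may degenerate at the same points of a compactification of `B`, which may be a curve.
Picard-Lefschetz formulas are the case in which the rank of `g - 1` is one.

**Theorem.** The Hodge realization is fully faithful on the motives of all products of varieties in `𝒵`
with arbitrary powers of the `X i` if and only if it is fully faithful on the motives of the varieties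
in `𝒵`.

So, by the theorem of Deligne, it is fully faithful on the category of motives which is generated by all
abelian varieties over `ℂ` and, for instance, all very general curves, hypersurfaces of odd dimension,
complete intersections of odd dimension, cyclic coverings of projective spaces of odd dimension, or
families of threefolds over a curve with singularities that acquire isolated or non-isolated
singularities with one vanishing cycle, or two, or a prime number of independent vanishing cycles,
simultaneously. No Hodge numbers enter.

The starting result `SymplecticMotives` of this problem assumes that the Mumford-Tate group acts
irreducibly on the Lie algebra of skew operators on `T i` and that the Hodge types of `T i` are separated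
from those of all `Z ∈ 𝒵` (`p - q > 1` if `𝒵` are the abelian varieties, so the level of `T i` is at
least two, and for example curves or cubic threefolds are excluded), or it restricts to small
products; here the monodromy group takes the role of the Mumford-Tate group, and no separation is
necessary. `VeryGeneralNodal` (MP_e2e4f5_ag) is about the absolute Hodge conjecture and varieties with
separate nodal degenerations.

The idea of the proof. By the theory of extremal elements (`Hx88.SS`, `V11219`) the Lie algebra of the
operators on the sum of the `T i` which kill all multilinear maps to the cohomology of `Y` that are
equivariant under a subgroup of finite index of `Γ` contains the symplectic Lie algebras of all `T i`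
which do not occur in `Y`. So the classes on `X i ^ n × Y` which are fixed by a subgroup of finite index
are sums of products of algebraic classes on `X i ^ n` with classes on `Y`. The coordinates of a Hodge
class with respect to linearly independent classes of algebraic cycles are unique, and hence they
are rational and of type `(r, r)` (`coord_hodge`). So they are Hodge classes on `Y`, absolute by
induction.
-/

set_option autoImplicit false

open CategoryTheory AlgebraicGeometry

universe u

namespace Pool.Agent.Results.MP_0da4e0_ag.VeryGeneralSemistable

open Pool.Agent.H914 Pool.Agent.Y132.AH Pool.Agent.Hx88.FF

variable {k : Type u} [Field k] {𝒱 : VarClass k} {ops : CycleOps 𝒱}

/-- **The Hodge realization is fully faithful on the motives generated by `𝒵` and the very general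
varieties `X i` if and only if it is fully faithful on the motives of the varieties in `𝒵`.** -/
theorem result (W : WeilCohomology.{u, 0} ops) [IsAlgClosed W.K] (Ψ : HodgeData W)
    (E : Embeddings W) {Γ : Type} [Group Γ] (G 𝒵 : Set (MVar W Γ)) (hG : VeryGeneral Ψ G)
    (h𝒵 : 𝒵 ⊆ G) (h𝒵' : ClosedProd 𝒵) {ι : Type} (X : ι → MVar W Γ) (hX : ∀ i, X i ∈ G)
    (h : ∀ Z ∈ 𝒵, ∀ s : Finset ι, Simultaneous (fun i : s => X i) Z) :
    FullyFaithfulOn Ψ E (productsWith (vars 𝒵) fun i => (X i).X) ↔
      FullyFaithfulOn Ψ E (vars 𝒵) :=
  full_faithful E hG h𝒵 h𝒵' hX h

end Pool.Agent.Results.MP_0da4e0_ag.VeryGeneralSemistable
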